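import Pool.Agent.H61.PQ.Main

/-!
# MP_beb0a3_gt, Q2 (Pohl's conjecture): the inequality between the Euler characteristic and the dimension for tight
topological surfaces in dimension at least six, and the characterisation of equality.

`H1 M` is the Alexander-Spanier cohomology group `H^1(M; Z/2)` (for a surface: singular cohomology), so that the
Euler characteristic of a closed connected surface is `2 - dim H1 M`.
-/

namespace Pool.Agent.Results.MP_beb0a3_gt.EulerInequality

open Set Topology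

open scoped RealInnerProductSpace

/-- Alexander-Spanier 1-cocycles mod 2: `g a b + g b c = g a c` for all `a, b, c` in a neighbourhood of `x`, for
each point `x` of `X` -/
def IsCocycle {X : Type*} [TopologicalSpace X] (g : X → X → ZMod 2) : Prop :=
  ∀ x, ∃ U ∈ 𝓝 x, ∀ a ∈ U, ∀ b ∈ U, ∀ c ∈ U, g a b + g b c = g a c

/-- Alexander-Spanier 1-coboundaries mod 2: there is a function `s` on `X` such that `g a b = s b - s a` for all
`a, b` in a neighbourhood of `x`, for each point `x` of `X` -/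
def IsCoboundary {X : Type*} [TopologicalSpace X] (g : X → X → ZMod 2) : Prop :=
  ∃ s : X → ZMod 2, ∀ x, ∃ U ∈ 𝓝 x, ∀ a ∈ U, ∀ b ∈ U, g a b = s b - s a

section

variable {X : Type*} [TopologicalSpace X]

theorem IsCocycle.add {g h : X → X → ZMod 2} (hg : IsCocycle g) (hh : IsCocycle h) :
    IsCocycle (g + h) := by
  intro x
  obtain ⟨U, hU, h1⟩ := hg x
  obtain ⟨V, hV, h2⟩ := hh x
  refine ⟨U ∩ V, Filter.inter_mem hU hV, fun a ha b hb c hc => ?_⟩
  simp only [Pi.add_apply]
  rw [← h1 a ha.1 b hb.1 c hc.1, ← h2 a ha.2 b hb.2 c hc.2]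
  ring

theorem IsCocycle.zero : IsCocycle (0 : X → X → ZMod 2) :=
  fun x => ⟨univ, Filter.univ_mem, by intros; simp⟩

theorem IsCocycle.smul (r : ZMod 2) {g : X → X → ZMod 2} (hg : IsCocycle g) :
    IsCocycle (r • g) := by
  intro x
  obtain ⟨U, hU, h1⟩ := hg x
  refine ⟨U, hU, fun a ha b hb c hc => ?_⟩
  simp only [Pi.smul_apply, smul_eq_mul]
  rw [← h1 a ha b hb c hc]
  ring

theorem IsCoboundary.add {g h : X → X → ZMod 2} (hg : IsCoboundary g) (hh : IsCoboundary h) :
    IsCoboundary (g + h) := by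
  obtain ⟨s, hs⟩ := hg
  obtain ⟨t, ht⟩ := hh
  refine ⟨s + t, fun x => ?_⟩
  obtain ⟨U, hU, h1⟩ := hs x
  obtain ⟨V, hV, h2⟩ := ht x
  refine ⟨U ∩ V, Filter.inter_mem hU hV, fun a ha b hb => ?_⟩
  simp only [Pi.add_apply]
  rw [h1 a ha.1 b hb.1, h2 a ha.2 b hb.2]
  ring

theorem IsCoboundary.zero : IsCoboundary (0 : X → X → ZMod 2) :=
  ⟨0, fun x => ⟨univ, Filter.univ_mem, by intros; simp⟩⟩

theorem IsCoboundary.smul (r : ZMod 2) {g : X → X → ZMod 2} (hg : IsCoboundary g) :
    IsCoboundary (r • g) := by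
  obtain ⟨s, hs⟩ := hg
  refine ⟨r • s, fun x => ?_⟩
  obtain ⟨U, hU, h1⟩ := hs x
  refine ⟨U, hU, fun a ha b hb => ?_⟩
  simp only [Pi.smul_apply, smul_eq_mul]
  rw [h1 a ha b hb]
  ring

end

/-- the space of the Alexander-Spanier 1-cocycles mod 2 of `X` -/
def cocycles (X : Type*) [TopologicalSpace X] : Submodule (ZMod 2) (X → X → ZMod 2) where
  carrier := {g | IsCocycle g}
  add_mem' := IsCocycle.add
  zero_mem' := IsCocycle.zero
  smul_mem' := fun r _ => IsCocycle.smul r

/-- the space of the Alexander-Spanier 1-coboundaries mod 2 of `X` -/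
def coboundaries (X : Type*) [TopologicalSpace X] : Submodule (ZMod 2) (X → X → ZMod 2) where
  carrier := {g | IsCoboundary g}
  add_mem' := IsCoboundary.add
  zero_mem' := IsCoboundary.zero
  smul_mem' := fun r _ => IsCoboundary.smul r

/-- the Alexander-Spanier cohomology group `H^1(X; Z/2)`: cocycles modulo coboundaries -/
abbrev H1 (X : Type*) [TopologicalSpace X] : Type _ :=
  (cocycles X) ⧸ (coboundaries X).comap (cocycles X).subtype

/-- `H^1(X; Z/2)` is finite-dimensional -/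
def FiniteH1 (X : Type*) [TopologicalSpace X] : Prop := Module.Finite (ZMod 2) (H1 X)

/-- the dimension of `H^1(X; Z/2)` (zero if it is not finite-dimensional) -/
noncomputable def dimH1 (X : Type*) [TopologicalSpace X] : ℕ := Module.finrank (ZMod 2) (H1 X)

/-- `f` is injective and its image is a union of two-dimensional faces of a `d`-simplex -/
def IsSubcomplexOfSimplex {M : Type*} {d : ℕ} (f : M → EuclideanSpace ℝ (Fin d)) : Prop :=
  Function.Injective f ∧ ∃ (p : Fin (d + 1) → EuclideanSpace ℝ (Fin d))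
    (T : Set (Finset (Fin (d + 1)))), AffineIndependent ℝ p ∧ (∀ t ∈ T, t.card = 3) ∧
      range f = ⋃ t ∈ T, convexHull ℝ (p '' (t : Set (Fin (d + 1))))

open Pool.Agent.H61.PO in
theorem dimH1_eq (X : Type*) [TopologicalSpace X] : dimH1 X = h1 (univ : Set X) := by
  have e1 : cocycles X = Zc (univ : Set X) := by
    ext g
    show (∀ x, ∃ U ∈ 𝓝 x, ∀ a ∈ U, ∀ b ∈ U, ∀ c ∈ U, g a b + g b c = g a c) ↔ Coc univ g
    simp [Coc]
  have e2 : coboundaries X = Bc (univ : Set X) := by
    ext g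
    show (∃ s : X → ZMod 2, ∀ x, ∃ U ∈ 𝓝 x, ∀ a ∈ U, ∀ b ∈ U, g a b = s b - s a) ↔ Cob univ g
    have hz : ∀ a b : ZMod 2, b - a = a + b := by decide
    simp [Cob, LCob, hz]
  let F : Submodule (ZMod 2) (X → X → ZMod 2) → Submodule (ZMod 2) (X → X → ZMod 2) → ℕ :=
    fun Z B => Module.finrank (ZMod 2) (Z ⧸ B.comap Z.subtype)
  show F (cocycles X) (coboundaries X) = F (Zc univ) (Bc univ)
  rw [e1, e2]

open Pool.Agent.H61.PO in
theorem isSub_iff {M : Type*} {d : ℕ} (f : M → EuclideanSpace ℝ (Fin d)) :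
    IsSub f ↔ IsSubcomplexOfSimplex f := by
  have e1 : Module.finrank ℝ (EuclideanSpace ℝ (Fin d)) = d := by simp
  unfold IsSub IsSubcomplexOfSimplex
  rw [e1]

theorem result {M : Type*} [TopologicalSpace M] [T2Space M] [CompactSpace M] [ConnectedSpace M]
    [ChartedSpace (EuclideanSpace ℝ (Fin 2)) M] {d : ℕ} (hd : 6 ≤ d)
    {f : M → EuclideanSpace ℝ (Fin d)} (hf : Continuous f)
    (hloc : ∀ x, ∃ U ∈ 𝓝 x, InjOn f U) (hsub : affineSpan ℝ (range f) = ⊤)
    (htight : ∀ (v : EuclideanSpace ℝ (Fin d)) (c : ℝ), IsPreconnected {x | c ≤ ⟪v, f x⟫}) :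
    FiniteH1 M ∧ (d - 2).choose 2 ≤ 3 * dimH1 M ∧
      ((d - 2).choose 2 = 3 * dimH1 M ↔ IsSubcomplexOfSimplex f) := by
  have h := Pool.Agent.H61.PO.q2_main hd hf hloc hsub htight
  rw [← dimH1_eq, isSub_iff] at h
  refine ⟨?_, h⟩
  have h4 : 0 < (d - 2).choose 2 := Nat.choose_pos (by omega)
  have h5 : 0 < Module.finrank (ZMod 2) (H1 M) := by
    have h6 := h.1
    unfold dimH1 at h6
    omega
  exact Module.finite_of_finrank_pos h5

end Pool.Agent.Results.MP_beb0a3_gt.EulerInequality
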