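import Pool.Agent.H61.PO.Main

/-!
# MP_beb0a3_gt, Q1 (Pohl's conjecture): the convex hull of a tight topological surface in dimension at least six is
a polytope.

The only part of tightness which is used is the connectedness of the preimages of the closed half spaces
(injectivity in `H_0`).
-/

namespace Pool.Agent.Results.MP_beb0a3_gt.HullIsPolytope

open Set Topology

open scoped RealInnerProductSpace

theorem result {M : Type*} [TopologicalSpace M] [T2Space M] [CompactSpace M] [ConnectedSpace M]
    [ChartedSpace (EuclideanSpace ℝ (Fin 2)) M] {d : ℕ} (hd : 6 ≤ d)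
    {f : M → EuclideanSpace ℝ (Fin d)} (hf : Continuous f)
    (hloc : ∀ x, ∃ U ∈ 𝓝 x, InjOn f U) (hsub : affineSpan ℝ (range f) = ⊤)
    (htight : ∀ (v : EuclideanSpace ℝ (Fin d)) (c : ℝ), IsPreconnected {x | c ≤ ⟪v, f x⟫}) :
    ∃ S : Set (EuclideanSpace ℝ (Fin d)), S.Finite ∧
      convexHull ℝ (range f) = convexHull ℝ S :=
  Pool.Agent.H61.PO.polytope_main hd hf hloc hsub htight

end Pool.Agent.Results.MP_beb0a3_gt.HullIsPolytope
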